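import Pool.Agent.D0H43.MQ.Stm
import Pool.Agent.Y18.JT.Cub

/-!
# Project MQ, module FF2: the points of `y² = x³ + A x` over a finite field and its quadratic extension
-/

set_option autoImplicit false

namespace Pool.Agent.D0H41.MQ

open Polynomial Finset
open Pool.Agent.H341R2.Sharp
open Pool.Agent.H82R3.EK (luc card_points)
open W165.CE (T_luc)
open Pool.Agent.Y18.JT (cubp cubp_natDegree cubp_monic aeval_cubp A_two_cub dsc)
open Pool.Agent.D0H43.MQ (np S_FF2)

theorem ff2 : S_FF2 := by
  intro k _ _ hk A hA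
  classical
  have hnp : ∀ B : k, (np B : ℤ) = Fintype.card k + ∑ x : k, quadraticChar k (x ^ 3 + B * x) :=
    fun B => card_points hk (fun x => x ^ 3 + B * x)
  have h2 : (2 : k) ≠ 0 := Ring.two_ne_zero hk
  refine ⟨?_, ?_, ?_, ?_⟩
  · intro k' _ _ _ hfr
    have hd : dsc (0 : k) A 0 ≠ 0 := by
      unfold dsc
      have h3 : (0 : k) ^ 2 * A ^ 2 - 4 * A ^ 3 - 4 * 0 ^ 3 * 0 - 27 * 0 ^ 2 + 18 * 0 * A * 0 =
        -(2 ^ 2 * A ^ 3) := by ring
      rw [h3]
      exact neg_ne_zero.2 (mul_ne_zero (pow_ne_zero _ h2) (pow_ne_zero _ hA))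
    have key : ∀ {E : Type} [Field E] [Fintype E] [Algebra k E],
        (Fintype.card E : ℤ) - np (algebraMap k E A) =
          - T (cubp (0 : k) A 0) (Module.finrank k E) := by
      intro E _ _ _
      have hE : ringChar E ≠ 2 := by rwa [← Algebra.ringChar_eq k E]
      have h4 : (np (algebraMap k E A) : ℤ) = Fintype.card E +
          ∑ x : E, quadraticChar E (x ^ 3 + algebraMap k E A * x) :=
        card_points hE (fun x => x ^ 3 + algebraMap k E A * x)
      rw [h4, T_eq_sum (E := E) hk]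
      have h5 : ∀ x : E, aeval x (cubp (0 : k) A 0) = x ^ 3 + algebraMap k E A * x := by
        intro x
        rw [aeval_cubp, map_zero]
        ring
      simp_rw [h5]
      ring
    have h1 := key (E := k)
    rw [Module.finrank_self, Algebra.algebraMap_self, RingHom.id_apply] at h1
    have h3 := key (E := k')
    rw [hfr] at h3
    have h6 := T_luc hk (cubp_natDegree (0 : k) A 0) (cubp_monic (0 : k) A 0) 1
    rw [A_two_cub hk _ _ _ hd] at h6
    simp only [luc] at h6
    rw [h3, h1]
    norm_num at h6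
    linear_combination -h6
  · intro c hc
    refine (Nat.card_congr (Equiv.subtypeEquiv
      ((Equiv.mulLeft₀ (c ^ 2) (pow_ne_zero _ hc)).prodCongr
        (Equiv.mulLeft₀ (c ^ 3) (pow_ne_zero _ hc))) fun P => ?_)).symm
    show P.2 ^ 2 = P.1 ^ 3 + A * P.1 ↔ (c ^ 3 * P.2) ^ 2 = (c ^ 2 * P.1) ^ 3 + c ^ 4 * A * (c ^ 2 * P.1)
    constructor
    · intro h
      linear_combination c ^ 6 * h
    · intro h
      have h6 : c ^ 6 ≠ 0 := pow_ne_zero _ hc
      apply mul_left_cancel₀ h6
      linear_combination h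
  · intro d hd
    have hd0 : d ≠ 0 := by
      rintro rfl
      exact hd ⟨0, by norm_num⟩
    have hχ : quadraticChar k d = -1 := by
      rw [quadraticChar_neg_one_iff_not_isSquare]
      rintro ⟨c, hc⟩
      exact hd ⟨c, by rw [hc, pow_two]⟩
    have hsum : ∑ x : k, quadraticChar k (x ^ 3 + d ^ 2 * A * x) =
        - ∑ x : k, quadraticChar k (x ^ 3 + A * x) := by
      rw [← Finset.sum_neg_distrib]
      refine (Fintype.sum_equiv (Equiv.mulLeft₀ d hd0) _ _ fun x => ?_).symm
      show -quadraticChar k (x ^ 3 + A * x) =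
        quadraticChar k ((d * x) ^ 3 + d ^ 2 * A * (d * x))
      have h3 : (d * x) ^ 3 + d ^ 2 * A * (d * x) = d ^ 3 * (x ^ 3 + A * x) := by ring
      rw [h3, map_mul, map_pow, hχ]
      ring
    rw [hnp, hnp, hsum]
    ring
  · have h3 : (np A : ℤ) ≤ 2 * Fintype.card k := by
      rw [hnp]
      have h4 : ∑ x : k, quadraticChar k (x ^ 3 + A * x) ≤ ∑ _x : k, (1 : ℤ) := by
        refine Finset.sum_le_sum fun x _ => ?_
        rcases quadraticChar_isQuadratic k (x ^ 3 + A * x) with h | h | h <;> rw [h] <;> norm_num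
      rw [Finset.sum_const, Finset.card_univ, nsmul_eq_mul, mul_one] at h4
      linarith
    exact_mod_cast h3

end Pool.Agent.D0H41.MQ
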