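import Pool.Agent.D0H43.MQ.Stm
import Pool.Agent.W189.NF.LSer
import Pool.Agent.Y698.Lf

/-!
# Project MQ, module LOCL: from the `L`-series of `y² = x³ + A x` to the partial Euler product and back

The first part is copied from `Pool/Agent/D0H69/JT/Lf1.lean` (helper69), the second one from
`Pool/Agent/D0H69/JT/Lf3.lean`.
-/

set_option autoImplicit false
set_option linter.unusedVariables false
set_option linter.unusedSectionVars false

open scoped Classical

namespace Pool.Agent.D0H41.MQ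

open NumberField IsDedekindDomain Filter Topology
open Pool.Agent.W189.NF (aV eV redMap Ov mem_max_iff finite_res card_res redMap_eq_zero aLoc eLoc
  aV_le eV_le LSeries_hasProd redMap_surjective point_card)
open Pool.Agent.H921R2.TatePole (nm two_le_nm)
open Pool.Agent.Y698 (AP min_count v_unit)
open Pool.Agent.D0H43.MQ (np qn tn fac)

section gen
variable {L : Type} [Field L] [NumberField L] (W : WeierstrassCurve L)

/-- the local polynomial at `q ^ (-s)` -/
noncomputable def PP (s : ℂ) (v : HeightOneSpectrum (𝓞 L)) : ℂ :=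
  1 - (aV W v : ℂ) * (nm v : ℂ) ^ (-s) + (eV W v : ℂ) * ((nm v : ℂ) ^ (-s)) ^ 2

lemma nm_ne0 (v : HeightOneSpectrum (𝓞 L)) : (nm v : ℂ) ≠ 0 := by
  have := two_le_nm v
  exact_mod_cast (by omega : nm v ≠ 0)

lemma pp_diff (v : HeightOneSpectrum (𝓞 L)) : Differentiable ℂ (fun s => PP W s v) := by
  have h : Differentiable ℂ (fun s : ℂ => (nm v : ℂ) ^ (-s)) := fun s =>
    (differentiableAt_id.neg).const_cpow (Or.inl (nm_ne0 v))
  unfold PP
  exact ((differentiable_const _).sub ((differentiable_const _).mul h)).add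
    ((differentiable_const _).mul (h.pow 2))

/-- the value at `1` is not zero -/
theorem pp_one (v : HeightOneSpectrum (𝓞 L)) : PP W 1 v ≠ 0 := by
  have hq := nm_ne0 v
  have hq2 : (2 : ℤ) ≤ (nm v : ℤ) := by exact_mod_cast two_le_nm v
  have hfin := finite_res v
  have h1 : (PP W 1 v) * (nm v : ℂ) = (((nm v : ℤ) - aV W v : ℤ) : ℂ) + (eV W v : ℂ) / (nm v : ℂ) := by
    unfold PP
    rw [Complex.cpow_neg_one]
    push_cast
    field_simp
  have key : (nm v : ℤ) - aV W v ≠ 0 ∧ eV W v = 0 ∨ (0 < (nm v : ℤ) - aV W v + 1) ∧ eV W v = nm v := by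
    unfold aV eV aLoc eLoc
    have hc : Nat.card (IsLocalRing.ResidueField (v.adicCompletionIntegers L)) = nm v := card_res v
    split_ifs with h2 h3 h4
    · right
      have h5 := (point_card (((W.baseChange (v.adicCompletion L)).minimal
        (v.adicCompletionIntegers L)).reduction (v.adicCompletionIntegers L))).1
      rw [hc]
      refine ⟨?_, rfl⟩
      have h6 : (1 : ℤ) ≤ (Nat.card (((W.baseChange (v.adicCompletion L)).minimal
        (v.adicCompletionIntegers L)).reduction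
          (v.adicCompletionIntegers L)).toAffine.Point : ℤ) := by exact_mod_cast h5
      linarith
    · left
      exact ⟨by omega, rfl⟩
    · left
      exact ⟨by omega, rfl⟩
    · left
      exact ⟨by omega, rfl⟩
  intro h0
  rw [h0, zero_mul] at h1
  rcases key with ⟨k1, k2⟩ | ⟨k1, k2⟩
  · rw [k2, Int.cast_zero, zero_div, add_zero] at h1
    exact k1 (by exact_mod_cast h1.symm)
  · rw [k2, Int.cast_natCast, div_self hq] at h1
    have h2 : (nm v : ℤ) - aV W v + 1 = 0 := by exact_mod_cast h1.symm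
    omega

/-- the values for `Re s > 2` are not zero -/
theorem pp_ne {s : ℂ} (hs : 2 < s.re) (v : HeightOneSpectrum (𝓞 L)) : PP W s v ≠ 0 := by
  have hq2 : (2 : ℝ) ≤ nm v := by exact_mod_cast two_le_nm v
  have hq0 : (0 : ℝ) < nm v := by linarith
  have hn : ‖(nm v : ℂ) ^ (-s)‖ ≤ ((nm v : ℝ) ^ 2)⁻¹ := by
    rw [Complex.norm_natCast_cpow_of_pos (by have := two_le_nm v; omega), Complex.neg_re]
    calc (nm v : ℝ) ^ (-s.re) ≤ (nm v : ℝ) ^ (-2 : ℝ) :=
          Real.rpow_le_rpow_of_exponent_le (by linarith) (by linarith)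
      _ = ((nm v : ℝ) ^ 2)⁻¹ := by
        rw [Real.rpow_neg hq0.le]
        norm_cast
  have ha : ‖(aV W v : ℂ)‖ ≤ nm v := by
    rw [Complex.norm_intCast]
    exact_mod_cast aV_le W v
  have he : ‖(eV W v : ℂ)‖ ≤ nm v := by
    rw [Complex.norm_intCast]
    exact_mod_cast eV_le W v
  have h1 : ‖(aV W v : ℂ) * (nm v : ℂ) ^ (-s)‖ ≤ 1 / 2 := by
    rw [norm_mul]
    calc _ ≤ (nm v : ℝ) * ((nm v : ℝ) ^ 2)⁻¹ := by gcongr
      _ = (nm v : ℝ)⁻¹ := by field_simp
      _ ≤ 2⁻¹ := inv_anti₀ (by norm_num) hq2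
      _ = 1 / 2 := by norm_num
  have h2 : ‖(eV W v : ℂ) * ((nm v : ℂ) ^ (-s)) ^ 2‖ ≤ 1 / 4 := by
    rw [norm_mul, norm_pow]
    calc _ ≤ (nm v : ℝ) * (((nm v : ℝ) ^ 2)⁻¹) ^ 2 := by gcongr
      _ = ((nm v : ℝ)⁻¹) ^ 2 * (nm v : ℝ)⁻¹ := by field_simp
      _ ≤ (2⁻¹) ^ 2 * 1 := by
        gcongr
        exact inv_le_one_of_one_le₀ (by linarith)
      _ = 1 / 4 := by norm_num
  intro h0
  have h3 : (1 : ℂ) = (aV W v : ℂ) * (nm v : ℂ) ^ (-s) - (eV W v : ℂ) * ((nm v : ℂ) ^ (-s)) ^ 2 := by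
    unfold PP at h0
    linear_combination h0
  have h4 : (1 : ℝ) ≤ 1 / 2 + 1 / 4 := by
    calc (1 : ℝ) = ‖(1 : ℂ)‖ := by rw [norm_one]
      _ ≤ ‖(aV W v : ℂ) * (nm v : ℂ) ^ (-s)‖ + ‖(eV W v : ℂ) * ((nm v : ℂ) ^ (-s)) ^ 2‖ := by
        conv_lhs => rw [h3]
        exact norm_sub_le _ _
      _ ≤ _ := add_le_add h1 h2
  norm_num at h4

/-- the product over the other places -/
theorem hasProd_compl (T : Finset (HeightOneSpectrum (𝓞 L))) {s : ℂ} (hs : 2 < s.re) :
    HasProd (fun v : {v : HeightOneSpectrum (𝓞 L) // v ∉ T} => (PP W s v.1)⁻¹)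
      (W.LSeries s * ∏ v ∈ T, PP W s v) := by
  have h1 : HasProd (fun v => (PP W s v)⁻¹) (W.LSeries s) := (LSeries_hasProd W hs).2
  have h2 : HasProd (fun v => if v ∈ T then PP W s v else 1)
      (∏ v ∈ T, if v ∈ T then PP W s v else 1) :=
    hasProd_prod_of_ne_finset_one fun v hv => if_neg hv
  have h3 : ∏ v ∈ T, (if v ∈ T then PP W s v else 1) = ∏ v ∈ T, PP W s v :=
    Finset.prod_congr rfl fun v hv => if_pos hv
  rw [h3] at h2
  have h4 := h1.mul h2
  have h5 : (fun v : {v : HeightOneSpectrum (𝓞 L) // v ∉ T} => (PP W s v.1)⁻¹) =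
      (fun v => (PP W s v)⁻¹ * if v ∈ T then PP W s v else 1) ∘ Subtype.val := by
    funext v
    show _ = _ * _
    rw [if_neg v.2, mul_one]
  rw [h5]
  refine (Function.Injective.hasProd_iff Subtype.val_injective ?_).2 h4
  intro v hv
  have hT : v ∈ T := by
    by_contra h
    exact hv ⟨⟨v, h⟩, rfl⟩
  show _ * _ = _
  rw [if_pos hT, inv_mul_cancel₀ (pp_ne W hs v)]

/-- the finitely many places -/
theorem fin_pl {B : 𝓞 L} (hB : B ≠ 0) : {v : HeightOneSpectrum (𝓞 L) | B ∈ v.asIdeal}.Finite := by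
  have h := Ideal.finite_factors (I := Ideal.span {B}) (by simpa using hB)
  refine h.subset fun v hv => ?_
  show v.asIdeal ∣ Ideal.span {B}
  rw [Ideal.dvd_span_singleton]
  exact hv

/-- the curve `y² = x³ + d x` -/
def w4 {R : Type*} [CommRing R] (d : R) : WeierstrassCurve R := ⟨0, 0, 0, d, 0⟩

lemma w4_Δ {R : Type*} [CommRing R] (d : R) : (w4 d).Δ = -64 * d ^ 3 := by
  simp only [w4, WeierstrassCurve.Δ, WeierstrassCurve.b₂, WeierstrassCurve.b₄,
    WeierstrassCurve.b₆, WeierstrassCurve.b₈]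
  ring

lemma w4_map {R S : Type*} [CommRing R] [CommRing S] (f : R →+* S) (d : R) :
    (w4 d).map f = w4 (f d) := by
  ext <;> simp [w4]

lemma coe_comp4 (v : HeightOneSpectrum (𝓞 L)) (x : 𝓞 L) :
    algebraMap (Ov v) (v.adicCompletion L) (algebraMap (𝓞 L) (Ov v) x) =
      algebraMap L (v.adicCompletion L) (x : L) := by
  rw [HeightOneSpectrum.algebraMap_adicCompletion]
  rfl

lemma isUnit4 {v : HeightOneSpectrum (𝓞 L)} {x : 𝓞 L} (hx : x ∉ v.asIdeal) :
    IsUnit (algebraMap (𝓞 L) (Ov v) x) := by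
  rw [← IsLocalRing.residue_ne_zero_iff_isUnit]
  intro h
  exact hx ((redMap_eq_zero v x).1 h)

/-- the Euler factor at a good place -/
theorem pp_good {c : 𝓞 L} {v : HeightOneSpectrum (𝓞 L)} (hc : 2 * c ∉ v.asIdeal) (s : ℂ) :
    (PP (w4 (c : L)) s v)⁻¹ = fac c s v := by
  have hfin := finite_res v
  have hcard : Nat.card (IsLocalRing.ResidueField (Ov v)) = nm v := card_res v
  have h2 : (2 : 𝓞 L) ∉ v.asIdeal := fun h => hc (Ideal.mul_mem_right _ _ h)
  have hc' : c ∉ v.asIdeal := fun h => hc (Ideal.mul_mem_left _ _ h)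
  have hΔ : IsUnit (w4 (algebraMap (𝓞 L) (Ov v) c)).Δ := by
    rw [w4_Δ]
    have h1 : IsUnit (2 : Ov v) := by
      have := isUnit4 h2
      rwa [map_ofNat] at this
    have h2 : (-64 : Ov v) = -(2 ^ 6) := by norm_num
    rw [h2]
    exact ((h1.pow 6).neg).mul ((isUnit4 hc').pow 3)
  obtain ⟨c1, c2⟩ := min_count (v.adicCompletionIntegers L) hΔ
    (W := (w4 (c : L)).baseChange (v.adicCompletion L)) (by
      rw [w4_map, coe_comp4]
      exact w4_map _ _)
  have hker : RingHom.ker (redMap v) = v.asIdeal := by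
    ext r
    rw [RingHom.mem_ker]
    exact redMap_eq_zero v r
  let eq : (𝓞 L ⧸ v.asIdeal) ≃+* IsLocalRing.ResidueField (Ov v) :=
    (Ideal.quotEquivOfEq hker.symm).trans
      (RingHom.quotientKerEquivOfSurjective (redMap_surjective v))
  have heq : ∀ r : 𝓞 L, eq (Ideal.Quotient.mk v.asIdeal r) = redMap v r := fun r => rfl
  have hqn : qn v = nm v := by
    rw [← hcard]
    exact Nat.card_congr eq.toEquiv
  have hAP : Nat.card (AP ((w4 (algebraMap (𝓞 L) (Ov v) c)).map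
      (IsLocalRing.residue (Ov v)))) = np (Ideal.Quotient.mk v.asIdeal c) := by
    unfold np AP
    symm
    refine Nat.card_congr ((eq.toEquiv.prodCongr eq.toEquiv).subtypeEquiv fun P => ?_)
    rw [w4_map, WeierstrassCurve.Affine.equation_iff]
    unfold w4
    simp only [zero_mul, add_zero]
    show _ ↔ (eq P.2) ^ 2 = (eq P.1) ^ 3 + (redMap v c) * eq P.1
    rw [← heq, ← map_pow, ← map_pow, ← map_mul, ← map_add, eq.injective.eq_iff]
  have ha : aV (w4 (c : L)) v = tn c v := by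
    unfold aV tn
    rw [c1, hAP, hqn, hcard]
  have he : (eV (w4 (c : L)) v : ℂ) = (qn v : ℂ) := by
    unfold eV
    rw [c2, hqn]
    push_cast
    rw [hcard]
  unfold PP fac
  rw [ha, he, hqn]

lemma notmem_dvd {A M : 𝓞 L} (hAM : 2 * A ∣ M) {v : HeightOneSpectrum (𝓞 L)}
    (hv : M ∉ v.asIdeal) : 2 * A ∉ v.asIdeal := by
  intro h
  obtain ⟨m, rfl⟩ := hAM
  exact hv (Ideal.mul_mem_right _ _ h)

/-- **from the `L`-series to the partial Euler product** -/
theorem partL {A M : 𝓞 L} (hM : M ≠ 0) (hAM : 2 * A ∣ M) {Λ : ℂ → ℂ}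
    (hΛ : Differentiable ℂ Λ) (h1 : Λ 1 ≠ 0)
    (hs : ∀ s : ℂ, 2 < s.re → Λ s = (w4 (A : L)).LSeries s) :
    ∃ G : ℂ → ℂ, Differentiable ℂ G ∧ G 1 ≠ 0 ∧ ∀ s : ℂ, 2 < s.re →
      HasProd (fun v : {v : HeightOneSpectrum (𝓞 L) // M ∉ v.asIdeal} => fac A s v.1) (G s) := by
  set T := (fin_pl hM).toFinset with hT
  have hmem : ∀ v, v ∈ T ↔ M ∈ v.asIdeal := fun v => by
    rw [hT, Set.Finite.mem_toFinset]
    rfl
  refine ⟨fun s => Λ s * ∏ v ∈ T, PP (w4 (A : L)) s v, ?_, ?_, fun s hs2 => ?_⟩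
  · exact hΛ.mul (Differentiable.fun_finsetProd fun v _ => pp_diff _ v)
  · exact mul_ne_zero h1 (Finset.prod_ne_zero_iff.2 fun v _ => pp_one _ v)
  · show HasProd _ (Λ s * ∏ v ∈ T, PP (w4 (A : L)) s v)
    rw [hs s hs2]
    have h4 := hasProd_compl (w4 (A : L)) T hs2
    have h5 := (Equiv.hasProd_iff (Equiv.subtypeEquivRight fun v => not_congr (hmem v).symm :
      {v : HeightOneSpectrum (𝓞 L) // M ∉ v.asIdeal} ≃
      {v : HeightOneSpectrum (𝓞 L) // v ∉ T})).2 h4
    refine h5.congr_fun fun v => ?_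
    exact (pp_good (notmem_dvd hAM v.2) s).symm

/-- **back from the partial Euler product to the `L`-series** -/
theorem fullL {A M : 𝓞 L} (hM : M ≠ 0) (hAM : 2 * A ∣ M) {G : ℂ → ℂ}
    (hG : Differentiable ℂ G) (hG1 : G 1 ≠ 0)
    (hP : ∀ s : ℂ, 2 < s.re →
      HasProd (fun v : {v : HeightOneSpectrum (𝓞 L) // M ∉ v.asIdeal} => fac A s v.1) (G s)) :
    ∃ Λ : ℂ → ℂ, MeromorphicOn Λ Set.univ ∧ AnalyticAt ℂ Λ 1 ∧ Λ 1 ≠ 0 ∧
      ∀ s : ℂ, 2 < s.re → Λ s = (w4 (A : L)).LSeries s := by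
  set T := (fin_pl hM).toFinset with hT
  have hmem : ∀ v, v ∈ T ↔ M ∈ v.asIdeal := fun v => by
    rw [hT, Set.Finite.mem_toFinset]
    rfl
  have hD3 : ∀ v : HeightOneSpectrum (𝓞 L), M ∉ v.asIdeal → 2 * A ∉ v.asIdeal := by
    intro v hv
    exact notmem_dvd hAM hv
  set W : WeierstrassCurve L := w4 (A : L) with hW
  have hsplit : ∀ s : ℂ, 2 < s.re → W.LSeries s * ∏ v ∈ T, PP W s v = G s := by
    intro s hs
    have h1 := hasProd_compl W T hs
    have h4 : HasProd (fun v : {v : HeightOneSpectrum (𝓞 L) // v ∉ T} =>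
        fac A s v.1) (G s) := by
      have h5 := (Equiv.hasProd_iff (Equiv.subtypeEquivRight fun v => not_congr (hmem v) :
        {v : HeightOneSpectrum (𝓞 L) // v ∉ T} ≃
        {v : HeightOneSpectrum (𝓞 L) // M ∉ v.asIdeal})).2 (hP s hs)
      exact h5
    refine h1.unique (h4.congr_fun fun v => ?_)
    exact pp_good (hD3 v.1 (fun h => v.2 ((hmem v.1).2 h))) s
  refine ⟨fun s => (∏ v ∈ T, (PP W s v)⁻¹) * G s, fun z _ => ?_, ?_, ?_, fun s hs => ?_⟩
  · refine MeromorphicAt.fun_mul ?_ (hG.analyticAt z).meromorphicAt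
    refine MeromorphicAt.fun_prod fun v _ => ?_
    exact (((pp_diff W v).analyticAt z).meromorphicAt).fun_inv
  · refine AnalyticAt.fun_mul ?_ (hG.analyticAt 1)
    refine Finset.analyticAt_fun_prod _ fun v _ => ?_
    exact ((pp_diff W v).analyticAt 1).fun_inv (pp_one W v)
  · exact mul_ne_zero (Finset.prod_ne_zero_iff.2 fun v _ => inv_ne_zero (pp_one W v)) hG1
  · show (∏ v ∈ T, (PP W s v)⁻¹) * G s = _
    rw [← hsplit s hs, Finset.prod_inv_distrib]
    have h5 : ∏ v ∈ T, PP W s v ≠ 0 := Finset.prod_ne_zero_iff.2 fun v _ => pp_ne W hs v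
    field_simp

end gen

end Pool.Agent.D0H41.MQ
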