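import Pool.Agent.D0H43.MQ.StmB
import Pool.Agent.D0H41.MQ.LoclA

/-!
# Project MQ, module LOCL
-/

set_option autoImplicit false

namespace Pool.Agent.D0H41.MQ

theorem locl : Pool.Agent.D0H43.MQ.S_LOCL := fun L _ _ A M hM hAM =>
  ⟨fun Λ h1 h2 h3 => partL (L := L) (A := A) hM hAM h1 h2 h3,
    fun G h1 h2 h3 => fullL (L := L) (A := A) hM hAM h1 h2 h3⟩

end Pool.Agent.D0H41.MQ
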